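import Pool.Agent.helper74.TG.SW10
import Pool.Agent.helper96.TG.SW5c
import Pool.Agent.helper95.TG.SW9

/-!
# GNU project (MP_d11331_al): the Siegel-Walfisz theorem, final form
-/

namespace Pool.Agent.helper74.TG

open Finset ArithmeticFunction

/-- sw:8 -/
theorem psi_char (A B : ℕ) : ∃ C x₀ : ℝ, 0 < C ∧ ∀ x : ℝ, x₀ ≤ x → ∀ q : ℕ, 2 ≤ q →
    (q : ℝ) ≤ Real.log x ^ B → ∀ χ : DirichletCharacter ℂ q, χ ≠ 1 →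
    ‖∑ n ∈ Ioc 0 ⌊x⌋₊, (vonMangoldt n : ℂ) * χ n‖ ≤ C * x / Real.log x ^ A :=
  psi_char_of GG_bound_t lower_all A B

/-- sw:10: the prime number theorem with a logarithmic error term. -/
theorem psi_pnt (A : ℕ) : ∃ C x₀ : ℝ, 0 < C ∧ ∀ x : ℝ, x₀ ≤ x →
    |∑ n ∈ Ioc 0 ⌊x⌋₊, vonMangoldt n - x| ≤ C * x / Real.log x ^ A :=
  psi_pnt_of zeta_GG A

/-- sw:10: the Siegel-Walfisz theorem. -/
theorem siegel_walfisz (A B : ℕ) : ∃ C x₀ : ℝ, 0 < C ∧ ∀ x : ℝ, x₀ ≤ x → ∀ q : ℕ, 0 < q →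
    (q : ℝ) ≤ Real.log x ^ B → ∀ b : ℕ, Nat.Coprime b q → ∀ u : ℕ, (u : ℝ) ≤ x →
    |∑ n ∈ Ioc 0 u with n ≡ b [MOD q], vonMangoldt n - u / (Nat.totient q : ℝ)|
      ≤ C * x / Real.log x ^ A :=
  siegel_walfisz_of psi_char psi_pnt A B

end Pool.Agent.helper74.TG
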