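import Pool.Agent.helper74.TG.SW
import Pool.Agent.helper61.TG.WT2of
import Pool.Agent.helper95.TG.WT4of
import Pool.Agent.helper17.TG.WT7
import Pool.Agent.helper52.TG.WT8of
import Pool.Agent.helper52.TG.FI2of

/-!
# GNU project (MP_d11331_al): assembly of the analytic part
-/

namespace Pool.Agent.helper74.TG.Fin

open Finset ArithmeticFunction

theorem fw_close (m c : ℕ) (hm : 0 < m) (hc : Nat.Coprime c m) : ∃ N₀ : ℕ, ∀ N : ℕ, N₀ ≤ N →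
    ∀ α : ℝ, ∀ u : ℕ, u ≤ N →
    ‖∑ x ∈ Ioc 0 u, ((fw m c x : ℂ) - gm m c ⌊Real.log N ^ 44⌋₊ x) * ee (x * α)‖
      ≤ N / Real.log N ^ 14 :=
  fw_close_of m c (h61.fw_major_of siegel_walfisz 15 103 m c hm hc) hm hc

/-- The ternary theorem with unit coefficients. -/
theorem ternary (m : Fin 3 → ℕ) (hm : ∀ i, 0 < m i)
    (h19 : ∀ i, ∀ p : ℕ, p.Prime → p ≤ 19 → p ∣ m i) (δ : ℝ) (hδ : 0 < δ) :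
    ∃ n₀ : ℕ, ∀ c : Fin 3 → ℕ, (∀ i, c i < m i) → (∀ i, Nat.Coprime (c i) (m i)) →
      ∀ n : ℕ, n₀ ≤ n → ∀ lo hi : Fin 3 → ℕ, (∀ i, hi i ≤ n) →
      δ * (n : ℝ) ^ 2 ≤ ((Fintype.piFinset fun i : Fin 3 => Ioc (lo i) (hi i)).filter
        fun x => ∑ i, x i = n).card →
      ∃ x : Fin 3 → ℕ, (∀ i, lo i < x i ∧ x i ≤ hi i) ∧ ∑ i, x i = n ∧
        ∀ i, (m i * x i + c i).Prime :=
  ternary_of fw_close gm_count m hm h19 δ hδ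

/-- The primes for the group orders. -/
theorem BCD_exist : ∃ K₀ : ℕ, ∀ k : ℕ, K₀ ≤ k → ∃ B C D : ℕ, B.Prime ∧ C.Prime ∧ D.Prime ∧
    7 < B ∧ 7 < C ∧ 7 < D ∧ B ≠ C ∧ B ≠ D ∧ C ≠ D ∧ D % 42 = 1 ∧ ¬ 7 ∣ B - 1 ∧ ¬ 7 ∣ C - 1 ∧
    ¬ B ∣ C - 1 ∧ ¬ C ∣ B - 1 ∧ ¬ B ∣ D - 1 ∧ ¬ D ∣ B - 1 ∧ ¬ C ∣ D - 1 ∧ ¬ D ∣ C - 1 ∧
    6 * k = 45 * C + 36 * B + 4 * D + 641 :=
  BCD_exist_of ternary

end Pool.Agent.helper74.TG.Fin
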