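import Mathlib

/-!
# Ternary additive problem in primes (GNU project MP_d11331_al, analytic part): definitions
-/

namespace Pool.Agent.helper74.TG

open Finset ArithmeticFunction

/-- The additive character `exp(2 π i x)`. -/
noncomputable def ee (x : ℝ) : ℂ := Complex.exp (2 * Real.pi * x * Complex.I)

/-- The bound `min(X, 1/(2‖β‖))` for a geometric sum with `≤ X` terms, `‖β‖` the distance to the
nearest integer. -/
noncomputable def gb (X β : ℝ) : ℝ :=
  if 2 * |β - round β| * X ≤ 1 then X else 1 / (2 * |β - round β|)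

/-- `∑ (log n)^j n^(-s)`. -/
noncomputable def ZZ (j : ℕ) (s : ℂ) : ℂ := LSeries (fun n => (Real.log n : ℂ) ^ j) s

/-- `1 + log q + log (2 + |Im s|)`. -/
noncomputable def ll (q : ℕ) (s : ℂ) : ℝ := 1 + Real.log q + Real.log (2 + |s.im|)

/-- The product `ζ(s) L(s,χ₁) L(s,χ₂) L(s,χ₁χ₂)`. -/
noncomputable def FS {q₁ q₂ : ℕ} [NeZero q₁] [NeZero q₂] (χ₁ : DirichletCharacter ℂ q₁)
    (χ₂ : DirichletCharacter ℂ q₂) (s : ℂ) : ℂ :=
  riemannZeta s * DirichletCharacter.LFunction χ₁ s * DirichletCharacter.LFunction χ₂ s *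
    DirichletCharacter.LFunction (DirichletCharacter.changeLevel (dvd_mul_right q₁ q₂) χ₁ *
        DirichletCharacter.changeLevel (dvd_mul_left q₂ q₁) χ₂) s

/-- The residue of `FS` at `1`. -/
noncomputable def lamS {q₁ q₂ : ℕ} [NeZero q₁] [NeZero q₂] (χ₁ : DirichletCharacter ℂ q₁)
    (χ₂ : DirichletCharacter ℂ q₂) : ℂ :=
  DirichletCharacter.LFunction χ₁ 1 * DirichletCharacter.LFunction χ₂ 1 *
    DirichletCharacter.LFunction (DirichletCharacter.changeLevel (dvd_mul_right q₁ q₂) χ₁ *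
        DirichletCharacter.changeLevel (dvd_mul_left q₂ q₁) χ₂) 1

open Classical in
/-- The weight `(φ(m)/m) log (m x + c)` if `m x + c` is prime, and `0` otherwise. -/
noncomputable def fw (m c x : ℕ) : ℝ :=
  (Nat.totient m / m : ℝ) * if (m * x + c).Prime then Real.log (m * x + c : ℕ) else 0

/-- The mean value of `fw m c x * ee (-(a * x / q))`. -/
noncomputable def Hc (m c a q : ℕ) : ℂ :=
  (Nat.totient m / Nat.totient (m * q) : ℝ) *
    ∑ t ∈ range q with Nat.Coprime (m * t + c) q, ee (-(a * t / q))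

/-- The fractions `a / q` with `q ≤ Q`, as pairs `(q, a)`. -/
def Fa (Q : ℕ) : Finset (Σ _ : ℕ, ℕ) :=
  (Ioc 0 Q).sigma fun q => (range q).filter fun a => Nat.Coprime a q

/-- The (Ramanujan) model of `fw m c`. -/
noncomputable def gm (m c Q x : ℕ) : ℂ :=
  ∑ r ∈ Fa Q, Hc m c r.2 r.1 * ee (r.2 * x / r.1)

end Pool.Agent.helper74.TG
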