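import Pool.Agent.helper24.TG.S1

set_option linter.all false
set_option autoImplicit false

namespace Pool.Agent.helper24.TG

open Finset Classical

theorem LB_card_PA {P O : Type} [Fintype P] [DecidableEq P] [Fintype O] [DecidableEq O] {q : ℕ}
    (H : Host P O q) : (PA H).card = q ^ 2 := by
  have h1 : (Finset.univ.filter (fun t => H.inc t H.linf)).card + (PA H).card =
      Fintype.card P := by
    unfold PA
    rw [← Finset.card_univ]
    exact Finset.card_filter_add_card_filter_not (fun t => H.inc t H.linf)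
  rw [H.card_P, H.card_line] at h1
  omega

section
variable {P O V : Type} [Fintype P] [DecidableEq P] [Fintype O]
  [DecidableEq O] [Fintype V] [DecidableEq V]

theorem LB_swap (p : Par) (H : Host P O p.q) (v0 : V) (x y : P) (hx : x ∈ PA H) (hy : y ∈ PA H)
    (φ : P → V) (h : φ ∈ Psi p H v0) : φ ∘ Equiv.swap x y ∈ Psi p H v0 := by
  unfold Psi at h ⊢
  rw [Finset.mem_filter] at h ⊢
  obtain ⟨-, h1, h2⟩ := h
  have hPA : ∀ t, Equiv.swap x y t ∈ PA H ↔ t ∈ PA H := by
    intro t
    rcases eq_or_ne t x with rfl | htx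
    · rw [Equiv.swap_apply_left]; exact ⟨fun _ => hx, fun _ => hy⟩
    · rcases eq_or_ne t y with rfl | hty
      · rw [Equiv.swap_apply_right]; exact ⟨fun _ => hy, fun _ => hx⟩
      · rw [Equiv.swap_apply_of_ne_of_ne htx hty]
  refine ⟨Finset.mem_univ _, ?_, ?_⟩
  · intro u
    rw [← h1 u]
    apply Finset.card_bij (fun t _ => Equiv.swap x y t)
    · intro t ht
      rw [Finset.mem_filter] at ht ⊢
      exact ⟨(hPA t).2 ht.1, ht.2⟩
    · intro a _ b _ hab
      exact (Equiv.swap x y).injective hab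
    · intro b hb
      rw [Finset.mem_filter] at hb
      refine ⟨Equiv.swap x y b, ?_, Equiv.swap_apply_self _ _ _⟩
      rw [Finset.mem_filter]
      refine ⟨(hPA b).2 hb.1, ?_⟩
      simp only [Function.comp_apply, Equiv.swap_apply_self]
      exact hb.2
  · intro t ht
    simp only [Function.comp_apply]
    have : t ≠ x := fun h => ht (h ▸ hx)
    have : t ≠ y := fun h => ht (h ▸ hy)
    rw [Equiv.swap_apply_of_ne_of_ne ‹t ≠ x› ‹t ≠ y›]
    exact h2 t ht

theorem LB_exch (p : Par) (H : Host P O p.q) (v0 : V) (Z : Finset V) (J : Finset P) (x y : P)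
    (hx : x ∈ PA H) (hy : y ∈ PA H) (hxJ : x ∉ J) (hyJ : y ∉ J) :
    ((Psi p H v0).filter (fun φ => (∀ t ∈ J, φ t ∈ Z) ∧ φ x ∈ Z)).card =
      ((Psi p H v0).filter (fun φ => (∀ t ∈ J, φ t ∈ Z) ∧ φ y ∈ Z)).card := by
  have key : ∀ (x y : P), x ∈ PA H → y ∈ PA H → x ∉ J → y ∉ J → ∀ φ ∈ (Psi p H v0).filter
      (fun φ => (∀ t ∈ J, φ t ∈ Z) ∧ φ x ∈ Z), φ ∘ Equiv.swap x y ∈ (Psi p H v0).filter
      (fun φ => (∀ t ∈ J, φ t ∈ Z) ∧ φ y ∈ Z) := by
    intro x y hx hy hxJ hyJ φ h
    rw [Finset.mem_filter] at h ⊢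
    refine ⟨LB_swap p H v0 x y hx hy φ h.1, fun t ht => ?_, ?_⟩
    · simp only [Function.comp_apply]
      have h1 : t ≠ x := by rintro rfl; exact hxJ ht
      have h2 : t ≠ y := by rintro rfl; exact hyJ ht
      rw [Equiv.swap_apply_of_ne_of_ne h1 h2]
      exact h.2.1 t ht
    · simp only [Function.comp_apply, Equiv.swap_apply_right]
      exact h.2.2
  apply Finset.card_bij' (fun φ _ => φ ∘ Equiv.swap x y) (fun φ _ => φ ∘ Equiv.swap y x)
  · exact key x y hx hy hxJ hyJ
  · exact key y x hy hx hyJ hxJ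
  · intro φ _; funext t; simp [Equiv.swap_comm y x]
  · intro φ _; funext t; simp [Equiv.swap_comm y x]

/-- number of affine points with label in `Z` -/
theorem LB_count (p : Par) (H : Host P O p.q) (v0 : V) (Z : Finset V) (φ : P → V)
    (h : φ ∈ Psi p H v0) : ((PA H).filter (fun t => φ t ∈ Z)).card = p.w * Z.card := by
  unfold Psi at h
  rw [Finset.mem_filter] at h
  obtain ⟨-, h1, -⟩ := h
  have h2 : ((PA H).filter (fun t => φ t ∈ Z)).card =
      ∑ u ∈ Z, (((PA H).filter (fun t => φ t ∈ Z)).filter (fun t => φ t = u)).card :=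
    Finset.card_eq_sum_card_fiberwise (fun t ht => by
      simp only [Finset.coe_filter, Set.mem_setOf_eq] at ht
      exact ht.2)
  rw [h2]
  have h3 : ∀ u ∈ Z, (((PA H).filter (fun t => φ t ∈ Z)).filter (fun t => φ t = u)).card =
      p.w := by
    intro u hu
    rw [← h1 u, Finset.filter_filter]
    congr 1
    apply Finset.filter_congr
    intro t _
    constructor
    · exact fun h => h.2
    · exact fun h => ⟨h ▸ hu, h⟩
  rw [Finset.sum_congr rfl h3, Finset.sum_const, smul_eq_mul, mul_comm]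

theorem LB_step (p : Par) (H : Host P O p.q) (v0 : V) (hV : Fintype.card V = p.N)
    (Z : Finset V) (J : Finset P) (x : P)
    (hJ : J ⊆ PA H) (hx : x ∈ PA H) (hxJ : x ∉ J) :
    ((Psi p H v0).filter (fun φ => ∀ t ∈ insert x J, φ t ∈ Z)).card * p.N ≤
      Z.card * ((Psi p H v0).filter (fun φ => ∀ t ∈ J, φ t ∈ Z)).card := by
  set A := (Psi p H v0).filter (fun φ => ∀ t ∈ J, φ t ∈ Z) with hA
  have e1 : ((Psi p H v0).filter (fun φ => ∀ t ∈ insert x J, φ t ∈ Z)) =
      ((Psi p H v0).filter (fun φ => (∀ t ∈ J, φ t ∈ Z) ∧ φ x ∈ Z)) := by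
    apply Finset.filter_congr
    intro φ _
    rw [Finset.forall_mem_insert, and_comm]
  rw [e1]
  set B := ((Psi p H v0).filter (fun φ => (∀ t ∈ J, φ t ∈ Z) ∧ φ x ∈ Z)).card with hB
  -- double counting
  have h1 : ∑ y ∈ PA H \ J, ((Psi p H v0).filter (fun φ => (∀ t ∈ J, φ t ∈ Z) ∧ φ y ∈ Z)).card =
      (PA H \ J).card * B := by
    rw [Finset.sum_congr rfl (fun y hy => ?_), Finset.sum_const, smul_eq_mul]
    rw [Finset.mem_sdiff] at hy
    exact (LB_exch p H v0 Z J x y hx hy.1 hxJ hy.2).symm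
  have h2 : ∑ y ∈ PA H \ J, ((Psi p H v0).filter (fun φ => (∀ t ∈ J, φ t ∈ Z) ∧ φ y ∈ Z)).card =
      ∑ φ ∈ A, ((PA H \ J).filter (fun y => φ y ∈ Z)).card := by
    have : ∀ y ∈ PA H \ J, ((Psi p H v0).filter (fun φ => (∀ t ∈ J, φ t ∈ Z) ∧ φ y ∈ Z)).card =
        (A.filter (fun φ => φ y ∈ Z)).card := by
      intro y _
      rw [hA, Finset.filter_filter]
    rw [Finset.sum_congr rfl this]
    simp only [Finset.card_filter]
    exact Finset.sum_comm
  have h3 : ∀ φ ∈ A, ((PA H \ J).filter (fun y => φ y ∈ Z)).card + J.card = p.w * Z.card := by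
    intro φ hφ
    rw [hA, Finset.mem_filter] at hφ
    rw [← LB_count p H v0 Z φ hφ.1, ← Finset.card_union_of_disjoint]
    · congr 1
      ext t
      simp only [Finset.mem_union, Finset.mem_filter, Finset.mem_sdiff]
      constructor
      · rintro (⟨⟨a, b⟩, c⟩ | h)
        · exact ⟨a, c⟩
        · exact ⟨hJ h, hφ.2 t h⟩
      · rintro ⟨a, c⟩
        by_cases h : t ∈ J
        · exact Or.inr h
        · exact Or.inl ⟨⟨a, h⟩, c⟩
    · rw [Finset.disjoint_left]
      intro t ht
      rw [Finset.mem_filter, Finset.mem_sdiff] at ht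
      exact ht.1.2
  have h4 : (PA H \ J).card + J.card = p.q ^ 2 := by
    rw [Finset.card_sdiff_add_card_eq_card hJ, LB_card_PA]
  have h5 : 0 < (PA H \ J).card := Finset.card_pos.2 ⟨x, Finset.mem_sdiff.2 ⟨hx, hxJ⟩⟩
  have h6 : (PA H \ J).card * B + J.card * A.card = p.w * Z.card * A.card := by
    rw [← h1, h2]
    have : J.card * A.card = ∑ φ ∈ A, J.card := by
      rw [Finset.sum_const, smul_eq_mul, mul_comm]
    rw [this, ← Finset.sum_add_distrib, Finset.sum_congr rfl h3, Finset.sum_const, smul_eq_mul,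
      mul_comm]
  have hZ : Z.card ≤ p.N := hV ▸ Finset.card_le_univ Z
  have hw := p.hw
  have h7 : (PA H \ J).card * (B * p.N) ≤ (PA H \ J).card * (Z.card * A.card) := by
    have h8 : J.card * A.card * Z.card ≤ J.card * A.card * p.N := Nat.mul_le_mul_left _ hZ
    have h9 : ((PA H \ J).card * B + J.card * A.card) * p.N = p.w * Z.card * A.card * p.N := by
      rw [h6]
    have h10 : ((PA H \ J).card + J.card) * (Z.card * A.card) = p.w * p.N * (Z.card * A.card) := by
      rw [h4, hw]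
    nlinarith
  exact Nat.le_of_mul_le_mul_left h7 h5

end

theorem LB2 : LB2_stmt := by
  intro p P O V _ _ _ _ _ _ H v0 hV Z J
  induction J using Finset.induction_on with
  | empty =>
    intro _
    simp
  | insert x J hx ih =>
    intro hJ
    have hJ' : J ⊆ PA H := fun t ht => hJ (Finset.mem_insert_of_mem ht)
    have h1 := ih hJ'
    have h2 := LB_step p H v0 hV Z J x hJ' (hJ (Finset.mem_insert_self _ _)) hx
    rw [Finset.card_insert_of_notMem hx, pow_succ, pow_succ]
    calc _ = (((Psi p H v0).filter (fun φ => ∀ t ∈ insert x J, φ t ∈ Z)).card * p.N) *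
          p.N ^ J.card := by ring
      _ ≤ (Z.card * ((Psi p H v0).filter (fun φ => ∀ t ∈ J, φ t ∈ Z)).card) * p.N ^ J.card :=
          Nat.mul_le_mul_right _ h2
      _ = Z.card * (((Psi p H v0).filter (fun φ => ∀ t ∈ J, φ t ∈ Z)).card * p.N ^ J.card) := by
          ring
      _ ≤ Z.card * (Z.card ^ J.card * (Psi p H v0).card) := Nat.mul_le_mul_left _ h1
      _ = _ := by ring

end Pool.Agent.helper24.TG
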