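import Pool.Agent.helper43.TG.Spec

/-! # Row FEW (MP_facb47_co) -/

set_option autoImplicit false

namespace Pool.Agent.helper43.TG

theorem FEW_free {V : Type} [Fintype V] [DecidableEq V] (G : SimpleGraph V) [DecidableRel G.Adj]
    (k : ℕ) (S : Finset V) (u : V) (hu : u ∉ S) (c : V → Fin k) (g : Fin k) :
    free G k S (Function.update c u g) u = free G k S c u := by
  unfold free
  ext a
  simp only [Finset.mem_filter, Finset.mem_univ, true_and]
  refine forall_congr' fun y => forall_congr' fun hy => ?_
  have hne : y ≠ u := by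
    rintro rfl
    exact hu hy
  rw [Function.update_of_ne hne]

theorem t_few (h : UPD) : FEW := by
  intro V _ _ G _ k j S u hu
  have h1 := h V G k S u (fun c => if (free G k S c u).card ≤ j then (1 : ℝ) else 0) hu
  rw [Finset.card_filter]
  push_cast
  rw [h1]
  have h2 : ∀ c ∈ prop G k S, ∑ g ∈ free G k S c u,
      (if (free G k S (Function.update c u g) u).card ≤ j then (1 : ℝ) else 0) ≤ j := by
    intro c _
    have h3 : ∀ g ∈ free G k S c u, (if (free G k S (Function.update c u g) u).card ≤ j then (1 : ℝ) else 0) =
        if (free G k S c u).card ≤ j then (1 : ℝ) else 0 := by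
      intro g _
      rw [FEW_free G k S u hu c g]
    rw [Finset.sum_congr rfl h3, Finset.sum_const, nsmul_eq_mul]
    split_ifs with h4
    · rw [mul_one]
      exact_mod_cast h4
    · rw [mul_zero]
      exact Nat.cast_nonneg j
  calc _ ≤ ∑ c ∈ prop G k S, (j : ℝ) := Finset.sum_le_sum h2
    _ = (j : ℝ) * ((prop G k S).card : ℝ) := by
      rw [Finset.sum_const, nsmul_eq_mul, mul_comm]

end Pool.Agent.helper43.TG
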