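import Pool.Agent.helper74.TG.LB2

set_option linter.all false
set_option autoImplicit false

namespace Pool.Agent.helper24.TG

open Finset Classical

/-- the product form of LB2 -/
theorem LB_mgf (p : Par) {P O V : Type} [Fintype P] [DecidableEq P] [Fintype O]
    [DecidableEq O] [Fintype V] [DecidableEq V] (H : Host P O p.q) (v0 : V)
    (hV : Fintype.card V = p.N) (Z : Finset V) (J : Finset P) (x : P → ℝ) (hJ : J ⊆ PA H)
    (hx : ∀ t ∈ J, 0 ≤ x t) :
    ∑ φ ∈ Psi p H v0, ∏ t ∈ J, (1 + if φ t ∈ Z then x t else 0) ≤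
      (Psi p H v0).card * ∏ t ∈ J, (1 + x t * ((Z.card : ℝ) / p.N)) := by
  have hN : (0 : ℝ) < p.N := by exact_mod_cast p.hN
  simp only [Finset.prod_one_add]
  rw [Finset.sum_comm, Finset.mul_sum]
  apply Finset.sum_le_sum
  intro S hS
  rw [Finset.mem_powerset] at hS
  have h1 : ∀ φ : P → V, (∏ t ∈ S, if φ t ∈ Z then x t else 0) =
      if (∀ t ∈ S, φ t ∈ Z) then ∏ t ∈ S, x t else 0 := by
    intro φ
    split_ifs with h
    · exact Finset.prod_congr rfl fun t ht => if_pos (h t ht)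
    · push Not at h
      obtain ⟨t, ht, h⟩ := h
      exact Finset.prod_eq_zero ht (if_neg h)
  simp only [h1]
  rw [← Finset.sum_filter, Finset.sum_const, nsmul_eq_mul, Finset.prod_mul_distrib,
    Finset.prod_const]
  have h2 := LB2 p P O V H v0 hV Z S (hS.trans hJ)
  have h3 : (((Psi p H v0).filter (fun φ => ∀ t ∈ S, φ t ∈ Z)).card : ℝ) ≤
      (Psi p H v0).card * ((Z.card : ℝ) / p.N) ^ S.card := by
    rw [div_pow, mul_div_assoc', le_div_iff₀ (by positivity)]
    have : (((((Psi p H v0).filter (fun φ => ∀ t ∈ S, φ t ∈ Z)).card * p.N ^ S.card : ℕ)) : ℝ) ≤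
        ((Z.card ^ S.card * (Psi p H v0).card : ℕ) : ℝ) := by exact_mod_cast h2
    push_cast at this
    linarith
  have h4 : 0 ≤ ∏ t ∈ S, x t := Finset.prod_nonneg fun t ht => hx t (hS ht)
  calc _ ≤ ((Psi p H v0).card * ((Z.card : ℝ) / p.N) ^ S.card) * ∏ t ∈ S, x t :=
        mul_le_mul_of_nonneg_right h3 h4
    _ = _ := by ring

theorem LB_exp_le {u : ℝ} (h0 : 0 ≤ u) (h1 : u ≤ 1) : Real.exp u - 1 ≤ 2 * u := by
  have h2 := Real.abs_exp_sub_one_sub_id_le (x := u) (by rw [abs_of_nonneg h0]; exact h1)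
  have h3 := (abs_le.1 h2).2
  nlinarith

theorem LB_exp_neg {u : ℝ} (h0 : 0 ≤ u) : u - u ^ 2 / 2 ≤ 1 - Real.exp (-u) := by
  have h : ∀ u : ℝ, 0 ≤ u → Real.exp (-u) ≤ 1 - u + u ^ 2 / 2 := by
    intro u hu
    have h1 : 1 + u + u ^ 2 / 2 ≤ Real.exp u := Real.quadratic_le_exp_of_nonneg hu
    have h2 : 0 < Real.exp (-u) := Real.exp_pos _
    have h3 : Real.exp u * Real.exp (-u) = 1 := by rw [← Real.exp_add]; simp
    have h4 : 0 < 1 - u + u ^ 2 / 2 := by nlinarith [sq_nonneg (u - 1)]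
    have h5 : (1 + u + u ^ 2 / 2) * (1 - u + u ^ 2 / 2) = 1 + u ^ 4 / 4 := by ring
    have h6 : Real.exp (-u) * (1 + u + u ^ 2 / 2) ≤ 1 := by nlinarith
    have h7 : 0 < 1 + u + u ^ 2 / 2 := by positivity
    have h8 : Real.exp (-u) * (1 + u + u ^ 2 / 2) ≤
        (1 - u + u ^ 2 / 2) * (1 + u + u ^ 2 / 2) := by
      have : 0 ≤ u ^ 4 := by positivity
      nlinarith
    exact le_of_mul_le_mul_right h8 h7
  linarith [h u h0]

theorem LB3 : LB3_stmt := by
  intro p P O V _ _ _ _ _ _ H v0 hV Z J mu R y hJ hR hmu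
  set z : ℝ := (Z.card : ℝ) / p.N with hz
  have hz0 : 0 ≤ z := by positivity
  set x : P → ℝ := fun t => Real.exp (mu t / R) - 1 with hx
  have hx0 : ∀ t ∈ J, 0 ≤ x t := by
    intro t ht
    have : 0 ≤ mu t / R := div_nonneg (hmu t ht).1 hR.le
    have := Real.add_one_le_exp (mu t / R)
    simp only [hx]; linarith
  have hx1 : ∀ t ∈ J, x t ≤ 2 * (mu t / R) := by
    intro t ht
    exact LB_exp_le (div_nonneg (hmu t ht).1 hR.le) ((div_le_one hR).2 (hmu t ht).2)
  have h1 := LB_mgf p H v0 hV Z J x hJ hx0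
  have h2 : ∏ t ∈ J, (1 + x t * z) ≤ Real.exp (2 * (z * ∑ t ∈ J, mu t) / R) := by
    calc ∏ t ∈ J, (1 + x t * z) ≤ ∏ t ∈ J, Real.exp (2 * (mu t / R) * z) := by
          apply Finset.prod_le_prod
          · intro t ht
            have := mul_nonneg (hx0 t ht) hz0
            linarith
          · intro t ht
            have h3 := Real.add_one_le_exp (2 * (mu t / R) * z)
            have h4 := mul_le_mul_of_nonneg_right (hx1 t ht) hz0
            linarith
      _ = _ := by
          rw [← Real.exp_sum]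
          congr 1
          rw [Finset.mul_sum, Finset.mul_sum, Finset.sum_div]
          exact Finset.sum_congr rfl fun t _ => by ring
  have h3 : ∀ φ : P → V, ∏ t ∈ J, (1 + if φ t ∈ Z then x t else 0) =
      Real.exp ((∑ t ∈ J, if φ t ∈ Z then mu t else 0) / R) := by
    intro φ
    rw [Finset.sum_div, Real.exp_sum]
    apply Finset.prod_congr rfl
    intro t _
    split_ifs
    · simp only [hx]; ring
    · simp
  simp only [h3] at h1
  set F := (Psi p H v0).filter (fun φ => 2 * (z * ∑ t ∈ J, mu t) + y ≤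
      ∑ t ∈ J, if φ t ∈ Z then mu t else 0) with hF
  have h4 : (F.card : ℝ) * Real.exp ((2 * (z * ∑ t ∈ J, mu t) + y) / R) ≤
      ∑ φ ∈ Psi p H v0, Real.exp ((∑ t ∈ J, if φ t ∈ Z then mu t else 0) / R) := by
    calc (F.card : ℝ) * Real.exp ((2 * (z * ∑ t ∈ J, mu t) + y) / R) =
          ∑ φ ∈ F, Real.exp ((2 * (z * ∑ t ∈ J, mu t) + y) / R) := by
            rw [Finset.sum_const, nsmul_eq_mul]
      _ ≤ ∑ φ ∈ F, Real.exp ((∑ t ∈ J, if φ t ∈ Z then mu t else 0) / R) := by
            apply Finset.sum_le_sum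
            intro φ hφ
            rw [hF, Finset.mem_filter] at hφ
            exact Real.exp_le_exp.2 (div_le_div_of_nonneg_right hφ.2 hR.le)
      _ ≤ _ := Finset.sum_le_sum_of_subset_of_nonneg (Finset.filter_subset _ _)
            (fun _ _ _ => (Real.exp_pos _).le)
  have h5 : (F.card : ℝ) * Real.exp ((2 * (z * ∑ t ∈ J, mu t) + y) / R) ≤
      (Psi p H v0).card * Real.exp (2 * (z * ∑ t ∈ J, mu t) / R) :=
    h4.trans (h1.trans (mul_le_mul_of_nonneg_left h2 (Nat.cast_nonneg _)))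
  rw [add_div, Real.exp_add] at h5
  have h6 := Real.exp_pos (2 * (z * ∑ t ∈ J, mu t) / R)
  have h7 : ((F.card : ℝ) * Real.exp (y / R)) * Real.exp (2 * (z * ∑ t ∈ J, mu t) / R) ≤
      (Psi p H v0).card * Real.exp (2 * (z * ∑ t ∈ J, mu t) / R) := by
    calc _ = (F.card : ℝ) * (Real.exp (2 * (z * ∑ t ∈ J, mu t) / R) * Real.exp (y / R)) := by ring
      _ ≤ _ := h5
  exact le_of_mul_le_mul_right h7 h6

theorem LB4 : LB4_stmt := by
  intro p P O V _ _ _ _ _ _ H v0 hV Z J mu R e hJ hR he he1 hmu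
  have hN : (0 : ℝ) < p.N := by exact_mod_cast p.hN
  set z : ℝ := (Z.card : ℝ) / p.N with hz
  have hz0 : 0 ≤ z := by positivity
  have hzc : ((Zᶜ.card : ℕ) : ℝ) / p.N = 1 - z := by
    rw [hz, Finset.card_compl, Nat.cast_sub (Finset.card_le_univ Z), hV]
    field_simp
  set x : P → ℝ := fun t => Real.exp (e * mu t / R) - 1 with hx
  have hu0 : ∀ t ∈ J, 0 ≤ e * mu t / R := fun t ht =>
    div_nonneg (mul_nonneg he.le (hmu t ht).1) hR.le
  have hx0 : ∀ t ∈ J, 0 ≤ x t := by
    intro t ht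
    have := Real.add_one_le_exp (e * mu t / R)
    have := hu0 t ht
    simp only [hx]; linarith
  have h1 := LB_mgf p H v0 hV Zᶜ J x hJ hx0
  rw [hzc] at h1
  -- the product
  have h2 : ∀ t ∈ J, Real.exp (-(e * mu t / R)) * (1 + x t * (1 - z)) ≤
      Real.exp (-(z * (mu t / R) * e * (1 - e / 2))) := by
    intro t ht
    have h3 : Real.exp (-(e * mu t / R)) * (1 + x t * (1 - z)) =
        1 - z * (1 - Real.exp (-(e * mu t / R))) := by
      have : Real.exp (-(e * mu t / R)) * Real.exp (e * mu t / R) = 1 := by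
        rw [← Real.exp_add]; simp
      simp only [hx]
      linear_combination (1 - z) * this
    rw [h3]
    have h4 := LB_exp_neg (hu0 t ht)
    have h5 : e * mu t / R ≤ e := by
      rw [mul_div_assoc]
      have := (div_le_one hR).2 (hmu t ht).2
      nlinarith
    have h6 : e * mu t / R * (1 - e / 2) ≤ 1 - Real.exp (-(e * mu t / R)) := by
      have := mul_le_mul_of_nonneg_left h5 (hu0 t ht)
      nlinarith
    have h7 := mul_le_mul_of_nonneg_left h6 hz0
    have h8 := Real.add_one_le_exp (-(z * (mu t / R) * e * (1 - e / 2)))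
    have h9 : z * (e * mu t / R * (1 - e / 2)) = z * (mu t / R) * e * (1 - e / 2) := by ring
    linarith
  have h3 : (∏ t ∈ J, Real.exp (-(e * mu t / R))) * ∏ t ∈ J, (1 + x t * (1 - z)) ≤
      Real.exp (-(z * (∑ t ∈ J, mu t) * e * (1 - e / 2) / R)) := by
    rw [← Finset.prod_mul_distrib]
    refine (Finset.prod_le_prod (fun t ht => ?_) h2).trans ?_
    · have hz1 : z ≤ 1 := by
        rw [hz, div_le_one hN]
        exact_mod_cast hV ▸ Finset.card_le_univ Z
      have := mul_nonneg (hx0 t ht) (sub_nonneg.2 hz1)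
      positivity
    · rw [← Real.exp_sum]
      apply le_of_eq
      congr 1
      rw [Finset.mul_sum, Finset.sum_mul, Finset.sum_mul, Finset.sum_div, ← Finset.sum_neg_distrib]
      exact Finset.sum_congr rfl fun t _ => by ring
  have h4 : ∀ φ : P → V, (∏ t ∈ J, Real.exp (-(e * mu t / R))) *
      ∏ t ∈ J, (1 + if φ t ∈ Zᶜ then x t else 0) =
      Real.exp (-(e * (∑ t ∈ J, if φ t ∈ Z then mu t else 0) / R)) := by
    intro φ
    rw [← Finset.prod_mul_distrib, Finset.mul_sum, Finset.sum_div, ← Finset.sum_neg_distrib,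
      Real.exp_sum]
    apply Finset.prod_congr rfl
    intro t _
    by_cases h : φ t ∈ Z
    · simp [h]
    · have : φ t ∈ Zᶜ := Finset.mem_compl.2 h
      rw [if_pos this, if_neg h]
      simp only [hx]
      rw [add_sub_cancel, ← Real.exp_add]
      simp
  set F := (Psi p H v0).filter (fun φ => (∑ t ∈ J, if φ t ∈ Z then mu t else 0) ≤
      (1 - e) * (z * ∑ t ∈ J, mu t)) with hF
  have hP0 : 0 ≤ ∏ t ∈ J, Real.exp (-(e * mu t / R)) :=
    Finset.prod_nonneg fun t _ => (Real.exp_pos _).le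
  have h5 : ∑ φ ∈ Psi p H v0, Real.exp (-(e * (∑ t ∈ J, if φ t ∈ Z then mu t else 0) / R)) ≤
      (Psi p H v0).card * Real.exp (-(z * (∑ t ∈ J, mu t) * e * (1 - e / 2) / R)) := by
    calc ∑ φ ∈ Psi p H v0, Real.exp (-(e * (∑ t ∈ J, if φ t ∈ Z then mu t else 0) / R)) =
          (∏ t ∈ J, Real.exp (-(e * mu t / R))) *
            ∑ φ ∈ Psi p H v0, ∏ t ∈ J, (1 + if φ t ∈ Zᶜ then x t else 0) := by
            rw [Finset.mul_sum]
            exact Finset.sum_congr rfl fun φ _ => (h4 φ).symm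
      _ ≤ (∏ t ∈ J, Real.exp (-(e * mu t / R))) *
            ((Psi p H v0).card * ∏ t ∈ J, (1 + x t * (1 - z))) :=
            mul_le_mul_of_nonneg_left h1 hP0
      _ = (Psi p H v0).card * ((∏ t ∈ J, Real.exp (-(e * mu t / R))) *
            ∏ t ∈ J, (1 + x t * (1 - z))) := by ring
      _ ≤ _ := mul_le_mul_of_nonneg_left h3 (Nat.cast_nonneg _)
  have h6 : (F.card : ℝ) * Real.exp (-(e * ((1 - e) * (z * ∑ t ∈ J, mu t)) / R)) ≤
      ∑ φ ∈ Psi p H v0, Real.exp (-(e * (∑ t ∈ J, if φ t ∈ Z then mu t else 0) / R)) := by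
    calc (F.card : ℝ) * Real.exp (-(e * ((1 - e) * (z * ∑ t ∈ J, mu t)) / R)) =
          ∑ φ ∈ F, Real.exp (-(e * ((1 - e) * (z * ∑ t ∈ J, mu t)) / R)) := by
            rw [Finset.sum_const, nsmul_eq_mul]
      _ ≤ ∑ φ ∈ F, Real.exp (-(e * (∑ t ∈ J, if φ t ∈ Z then mu t else 0) / R)) := by
            apply Finset.sum_le_sum
            intro φ hφ
            rw [hF, Finset.mem_filter] at hφ
            apply Real.exp_le_exp.2
            apply neg_le_neg
            exact div_le_div_of_nonneg_right (mul_le_mul_of_nonneg_left hφ.2 he.le) hR.le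
      _ ≤ _ := Finset.sum_le_sum_of_subset_of_nonneg (Finset.filter_subset _ _)
            (fun _ _ _ => (Real.exp_pos _).le)
  have h7 := h6.trans h5
  have h8 := Real.exp_pos (-(z * (∑ t ∈ J, mu t) * e * (1 - e / 2) / R))
  have h9 : ((F.card : ℝ) * Real.exp (e ^ 2 * (z * ∑ t ∈ J, mu t) / (2 * R))) *
      Real.exp (-(z * (∑ t ∈ J, mu t) * e * (1 - e / 2) / R)) ≤
      (Psi p H v0).card * Real.exp (-(z * (∑ t ∈ J, mu t) * e * (1 - e / 2) / R)) := by
    refine le_trans (le_of_eq ?_) h7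
    rw [mul_assoc, ← Real.exp_add]
    congr 2
    field_simp
    ring
  exact le_of_mul_le_mul_right h9 h8

end Pool.Agent.helper24.TG
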