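import Pool.Agent.helper74.TG.SW8

/-!
# GNU project (MP_d11331_al), module sw:10: the prime number theorem, the Siegel-Walfisz theorem
-/

namespace Pool.Agent.helper74.TG

open Finset Real ArithmeticFunction Pool.Agent.helper39.MT

/-- powers of the logarithm are small -/
private lemma logpow (A : ℕ) (c : ℝ) (hc : 0 < c) : ∃ x₀ : ℝ, 1 ≤ x₀ ∧ ∀ x : ℝ, x₀ ≤ x →
    Real.log x ^ A ≤ c * x := by
  have h1 := (isLittleO_log_rpow_rpow_atTop (A : ℝ) (show (0 : ℝ) < 1 by norm_num)).bound hc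
  obtain ⟨x₀, h⟩ := Filter.eventually_atTop.1 h1
  refine ⟨max x₀ 1, le_max_right _ _, fun x hx => ?_⟩
  have hx1 : 1 ≤ x := (le_max_right _ _).trans hx
  have := h x ((le_max_left _ _).trans hx)
  rw [Real.norm_of_nonneg (Real.rpow_nonneg (Real.log_nonneg hx1) _), Real.rpow_one,
    Real.norm_of_nonneg (by linarith), Real.rpow_natCast] at this
  exact this

theorem psi_pnt_of
    (zeta_GG : ∀ K m : ℕ, ∃ x₀ : ℝ, ∀ x : ℝ, x₀ ≤ x → ∀ t : ℝ, |t| ≤ Real.log x ^ m →
      ‖LSeries (fun n => ((vonMangoldt n : ℂ) - 1) * (Real.log n : ℂ) ^ K)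
        (1 + 1 / (Real.log x : ℂ) + t * Complex.I)‖ ≤ Real.log x)
    (A : ℕ) : ∃ C x₀ : ℝ, 0 < C ∧ ∀ x : ℝ, x₀ ≤ x →
    |∑ n ∈ Ioc 0 ⌊x⌋₊, vonMangoldt n - x| ≤ C * x / Real.log x ^ A := by
  obtain ⟨K, C, x₀, hC, hF⟩ := fourier_sum A
  obtain ⟨x₁, hz⟩ := zeta_GG K (2 * A + 6)
  obtain ⟨x₂, hx₂1, hx₂⟩ := logpow A 1 one_pos
  refine ⟨C + 1, max x₀ (max x₁ (max x₂ (Real.exp 1))), by positivity, ?_⟩
  intro x hx
  have h0 : x₀ ≤ x := (le_max_left _ _).trans hx
  have h1 : x₁ ≤ x := (le_max_left _ _).trans ((le_max_right _ _).trans hx)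
  have h2 : x₂ ≤ x := (le_max_left _ _).trans ((le_max_right _ _).trans ((le_max_right _ _).trans hx))
  have h3 : Real.exp 1 ≤ x :=
    (le_max_right _ _).trans ((le_max_right _ _).trans ((le_max_right _ _).trans hx))
  have hx0 : 0 < x := (Real.exp_pos _).trans_le h3
  have hL1 : 1 ≤ Real.log x := by rw [Real.le_log_iff_exp_le hx0]; exact h3
  have hmain := hF x h0 (fun n => (vonMangoldt n : ℂ) - 1) (by
    intro n
    have h4 : 0 ≤ vonMangoldt n := vonMangoldt_nonneg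
    have h5 : vonMangoldt n ≤ Real.log n := vonMangoldt_le_log
    calc ‖(vonMangoldt n : ℂ) - 1‖ ≤ ‖(vonMangoldt n : ℂ)‖ + ‖(1 : ℂ)‖ := norm_sub_le _ _
      _ ≤ 1 + Real.log n := by
        rw [Complex.norm_real, Real.norm_of_nonneg h4, norm_one]; linarith) (fun t ht => hz x h1 t ht)
  have e : ∑ n ∈ Ioc 0 ⌊x⌋₊, ((vonMangoldt n : ℂ) - 1) =
      ((∑ n ∈ Ioc 0 ⌊x⌋₊, vonMangoldt n - ⌊x⌋₊ : ℝ) : ℂ) := by
    rw [sum_sub_distrib, sum_const, Nat.card_Ioc]
    push_cast
    simp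
  rw [e, Complex.norm_real, Real.norm_eq_abs] at hmain
  have h5 : |(⌊x⌋₊ : ℝ) - x| ≤ 1 := by
    rw [abs_le]
    constructor <;> linarith [Nat.floor_le hx0.le, Nat.lt_floor_add_one x]
  have h6 : (1 : ℝ) ≤ x / Real.log x ^ A := by
    rw [le_div_iff₀ (by positivity)]
    have := hx₂ x h2
    linarith
  calc |∑ n ∈ Ioc 0 ⌊x⌋₊, vonMangoldt n - x|
      = |(∑ n ∈ Ioc 0 ⌊x⌋₊, vonMangoldt n - ⌊x⌋₊) + (⌊x⌋₊ - x)| := by congr 1; ring
    _ ≤ |∑ n ∈ Ioc 0 ⌊x⌋₊, vonMangoldt n - ⌊x⌋₊| + |(⌊x⌋₊ : ℝ) - x| := abs_add_le _ _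
    _ ≤ C * x / Real.log x ^ A + x / Real.log x ^ A := by linarith
    _ = _ := by ring

/-- The contribution of the prime powers not prime to `q`. -/
lemma noncoprime_sum (q u : ℕ) (hq : 0 < q) (hu : 0 < u) :
    ∑ n ∈ Ioc 0 u with ¬ Nat.Coprime n q, vonMangoldt n ≤
      q * (2 * Real.log u + 1) * Real.log u := by
  classical
  have hlogu : 0 ≤ Real.log u := Real.log_natCast_nonneg u
  set T : Finset ℕ := (q.primeFactors ×ˢ range (Nat.log 2 u + 1)).image (fun p => p.1 ^ p.2) with hT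
  have hcard : (T.card : ℝ) ≤ q * (2 * Real.log u + 1) := by
    have h1 : T.card ≤ q.primeFactors.card * (Nat.log 2 u + 1) := by
      refine card_image_le.trans ?_
      rw [card_product, card_range]
    have h2 : q.primeFactors.card ≤ q := by
      calc q.primeFactors.card ≤ (Ioc 0 q).card := card_le_card (fun p hp => by
            rw [mem_Ioc]
            exact ⟨Nat.pos_of_mem_primeFactors hp, Nat.le_of_mem_primeFactors hp⟩)
        _ = q := by simp
    have h3 : (Nat.log 2 u : ℝ) ≤ 2 * Real.log u := by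
      have h4 : (Nat.log 2 u : ℝ) * Real.log 2 ≤ Real.log u := by
        rw [← Real.log_pow]
        apply Real.log_le_log (by positivity)
        exact_mod_cast Nat.pow_log_le_self 2 hu.ne'
      have h5 := Real.log_two_gt_d9
      have h6 : (0 : ℝ) ≤ Nat.log 2 u := Nat.cast_nonneg _
      nlinarith
    calc (T.card : ℝ) ≤ ((q.primeFactors.card * (Nat.log 2 u + 1) : ℕ) : ℝ) := by exact_mod_cast h1
      _ = q.primeFactors.card * (Nat.log 2 u + 1 : ℝ) := by push_cast; ring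
      _ ≤ q * (2 * Real.log u + 1) := by
        have : (q.primeFactors.card : ℝ) ≤ q := by exact_mod_cast h2
        gcongr
  have hsub : ∀ n ∈ (Ioc 0 u).filter (fun n => ¬ Nat.Coprime n q), n ∉ T → vonMangoldt n = 0 := by
    intro n hn hnT
    rw [mem_filter, mem_Ioc] at hn
    by_contra hne
    rw [← ne_eq, vonMangoldt_ne_zero_iff] at hne
    obtain ⟨p, k, hp, hk, rfl⟩ := (isPrimePow_nat_iff _).1 hne
    apply hnT
    rw [hT, mem_image]
    refine ⟨(p, k), ?_, rfl⟩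
    rw [mem_product, Nat.mem_primeFactors, mem_range]
    refine ⟨⟨hp, ?_, hq.ne'⟩, ?_⟩
    · by_contra hd
      apply hn.2
      exact Nat.Coprime.pow_left _ ((Nat.Prime.coprime_iff_not_dvd hp).2 hd)
    · rw [Nat.lt_succ_iff]
      apply Nat.le_log_of_pow_le (by norm_num)
      exact (Nat.pow_le_pow_left hp.two_le k).trans hn.1.2
  calc ∑ n ∈ Ioc 0 u with ¬ Nat.Coprime n q, vonMangoldt n
      = ∑ n ∈ (Ioc 0 u).filter (fun n => ¬ Nat.Coprime n q) with n ∈ T, vonMangoldt n := by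
        symm
        apply sum_filter_of_ne
        intro n hn hne
        by_contra h
        exact hne (hsub n hn h)
    _ ≤ ∑ n ∈ (Ioc 0 u).filter (fun n => ¬ Nat.Coprime n q) with n ∈ T, Real.log u := by
        apply sum_le_sum
        intro n hn
        rw [mem_filter, mem_filter, mem_Ioc] at hn
        refine vonMangoldt_le_log.trans (Real.log_le_log ?_ ?_)
        · exact_mod_cast hn.1.1.1
        · exact_mod_cast hn.1.1.2
    _ ≤ (T.card : ℝ) * Real.log u := by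
        rw [sum_const, nsmul_eq_mul]
        apply mul_le_mul_of_nonneg_right _ hlogu
        exact_mod_cast card_le_card (fun n hn => (mem_filter.1 hn).2)
    _ ≤ _ := by gcongr

theorem siegel_walfisz_of
    (psi_char : ∀ A B : ℕ, ∃ C x₀ : ℝ, 0 < C ∧ ∀ x : ℝ, x₀ ≤ x → ∀ q : ℕ, 2 ≤ q →
      (q : ℝ) ≤ Real.log x ^ B → ∀ χ : DirichletCharacter ℂ q, χ ≠ 1 →
      ‖∑ n ∈ Ioc 0 ⌊x⌋₊, (vonMangoldt n : ℂ) * χ n‖ ≤ C * x / Real.log x ^ A)
    (psi_pnt : ∀ A : ℕ, ∃ C x₀ : ℝ, 0 < C ∧ ∀ x : ℝ, x₀ ≤ x →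
      |∑ n ∈ Ioc 0 ⌊x⌋₊, vonMangoldt n - x| ≤ C * x / Real.log x ^ A)
    (A B : ℕ) : ∃ C x₀ : ℝ, 0 < C ∧ ∀ x : ℝ, x₀ ≤ x → ∀ q : ℕ, 0 < q →
    (q : ℝ) ≤ Real.log x ^ B → ∀ b : ℕ, Nat.Coprime b q → ∀ u : ℕ, (u : ℝ) ≤ x →
    |∑ n ∈ Ioc 0 u with n ≡ b [MOD q], vonMangoldt n - u / (Nat.totient q : ℝ)|
      ≤ C * x / Real.log x ^ A := by
  classical
  obtain ⟨C₁, x₁, hC₁, h1⟩ := psi_char A (B + 1)
  obtain ⟨C₂, x₂, hC₂, h2⟩ := psi_pnt A
  obtain ⟨x₃, hx₃1, hx₃⟩ := logpow (A + B + 2) 1 one_pos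
  -- `x / (log x)^(A+1)` is large
  obtain ⟨x₄, hx₄1, hx₄⟩ := logpow (A + 1) (1 / (1 + max x₁ x₂ ^ 2)) (by positivity)
  obtain ⟨x₅, hx₅1, hx₅⟩ := logpow (2 * (A + 1)) 1 one_pos
  refine ⟨3 + C₁ * 2 ^ A + C₂ * 2 ^ A + 9, max (max x₃ x₄) (max x₅ (Real.exp (2 ^ (B + 1)))),
    by positivity, ?_⟩
  intro x hx q hq hqL b hb u hu
  have hX3 : x₃ ≤ x := (le_max_left _ _).trans ((le_max_left _ _).trans hx)
  have hX4 : x₄ ≤ x := (le_max_right _ _).trans ((le_max_left _ _).trans hx)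
  have hX5 : x₅ ≤ x := (le_max_left _ _).trans ((le_max_right _ _).trans hx)
  have hXe : Real.exp (2 ^ (B + 1)) ≤ x := (le_max_right _ _).trans ((le_max_right _ _).trans hx)
  have hx0 : 0 < x := (Real.exp_pos _).trans_le hXe
  set L := Real.log x with hL
  have hL2 : (2 : ℝ) ^ (B + 1) ≤ L := by rw [hL, Real.le_log_iff_exp_le hx0]; exact hXe
  have h2B : (1 : ℝ) ≤ 2 ^ (B + 1) := one_le_pow₀ (by norm_num)
  have hL1 : 1 ≤ L := h2B.trans hL2
  have hL0 : 0 < L := by linarith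
  have hφ : 0 < Nat.totient q := Nat.totient_pos.2 hq
  have hφ1 : (1 : ℝ) ≤ Nat.totient q := by exact_mod_cast hφ
  have hφ0 : (0 : ℝ) < Nat.totient q := by linarith
  rcases lt_or_ge (u : ℝ) (x / L ^ (A + 1)) with hsmall | hlarge
  · -- small `u`
    rcases Nat.eq_zero_or_pos u with h0 | h0
    · subst h0
      simp
      positivity
    have hu0 : (0 : ℝ) < u := by exact_mod_cast h0
    have hlogu : Real.log u ≤ L := Real.log_le_log hu0 hu
    have hS0 : 0 ≤ ∑ n ∈ Ioc 0 u with n ≡ b [MOD q], vonMangoldt n :=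
      sum_nonneg fun n _ => vonMangoldt_nonneg
    have hS : ∑ n ∈ Ioc 0 u with n ≡ b [MOD q], vonMangoldt n ≤ u * L := by
      calc ∑ n ∈ Ioc 0 u with n ≡ b [MOD q], vonMangoldt n ≤ ∑ n ∈ Ioc 0 u, vonMangoldt n :=
            sum_le_sum_of_subset_of_nonneg (filter_subset _ _) fun n _ _ => vonMangoldt_nonneg
        _ ≤ ∑ n ∈ Ioc 0 u, L := by
            apply sum_le_sum
            intro n hn
            rw [mem_Ioc] at hn
            refine vonMangoldt_le_log.trans ((Real.log_le_log ?_ ?_).trans hlogu)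
            · exact_mod_cast hn.1
            · exact_mod_cast hn.2
        _ = u * L := by rw [sum_const, Nat.card_Ioc, nsmul_eq_mul]; simp
    have hu2 : (u : ℝ) / Nat.totient q ≤ u * L := by
      calc (u : ℝ) / Nat.totient q ≤ u := div_le_self hu0.le hφ1
        _ ≤ u * L := by nlinarith
    have hu3 : (u : ℝ) / Nat.totient q ≥ 0 := by positivity
    calc |∑ n ∈ Ioc 0 u with n ≡ b [MOD q], vonMangoldt n - u / (Nat.totient q : ℝ)|
        ≤ u * L := by rw [abs_le]; constructor <;> linarith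
      _ ≤ (x / L ^ (A + 1)) * L := by gcongr
      _ = 1 * x / L ^ A := by rw [pow_succ]; field_simp
      _ ≤ _ := by
        gcongr
        have : 0 ≤ C₁ * 2 ^ A + C₂ * 2 ^ A := by positivity
        linarith
  · -- large `u`
    have hM0 : (0 : ℝ) < 1 + max x₁ x₂ ^ 2 := by positivity
    have hLA : (1 : ℝ) ≤ L ^ (A + 1) := one_le_pow₀ hL1
    have huM : max x₁ x₂ ≤ u := by
      have h3 := hx₄ x hX4
      rw [← hL] at h3
      have h4 : 1 + max x₁ x₂ ^ 2 ≤ x / L ^ (A + 1) := by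
        rw [le_div_iff₀ (by positivity)]
        calc (1 + max x₁ x₂ ^ 2) * L ^ (A + 1) ≤
              (1 + max x₁ x₂ ^ 2) * (1 / (1 + max x₁ x₂ ^ 2) * x) := by gcongr
          _ = x := by field_simp
      have h5 : max x₁ x₂ ≤ 1 + max x₁ x₂ ^ 2 := by nlinarith [sq_nonneg (max x₁ x₂ - 1)]
      linarith
    have hu0 : (0 : ℝ) < u := lt_of_lt_of_le (by positivity) hlarge
    have hupos : 0 < u := by exact_mod_cast hu0
    have hlogu : Real.log u ≤ L := Real.log_le_log hu0 hu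
    have hloguL : L / 2 ≤ Real.log u := by
      have h3 := hx₅ x hX5
      rw [← hL, one_mul] at h3
      have h4 : (L ^ (A + 1)) ^ 2 ≤ x := by rw [← pow_mul, mul_comm]; exact h3
      have h5 : √x ≤ x / L ^ (A + 1) := by
        rw [le_div_iff₀ (by positivity)]
        have h6 : L ^ (A + 1) ≤ √x := Real.le_sqrt_of_sq_le h4
        calc √x * L ^ (A + 1) ≤ √x * √x := by gcongr
          _ = x := Real.mul_self_sqrt hx0.le
      calc L / 2 = Real.log (√x) := by rw [Real.log_sqrt hx0.le]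
        _ ≤ Real.log u := Real.log_le_log (by positivity) (h5.trans hlarge)
    have hlogu0 : 0 < Real.log u := by linarith [half_pos hL0]
    have hqu : (q : ℝ) ≤ Real.log u ^ (B + 1) := by
      calc (q : ℝ) ≤ L ^ B := hqL
        _ = L ^ B * 1 := (mul_one _).symm
        _ ≤ L ^ B * (L / 2 ^ (B + 1)) := by
          gcongr
          rw [le_div_iff₀ (by positivity)]
          linarith
        _ = (L / 2) ^ (B + 1) := by rw [div_pow]; ring
        _ ≤ Real.log u ^ (B + 1) := by gcongr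
    have hconv : ∀ C : ℝ, 0 ≤ C → C * u / Real.log u ^ A ≤ C * 2 ^ A * x / L ^ A := by
      intro C hC
      calc C * u / Real.log u ^ A ≤ C * x / (L / 2) ^ A := by gcongr
        _ = C * 2 ^ A * x / L ^ A := by rw [div_pow]; field_simp
    have hψ : ∀ χ : DirichletCharacter ℂ q, χ ≠ 1 →
        ‖∑ n ∈ Ioc 0 u, (vonMangoldt n : ℂ) * χ n‖ ≤ C₁ * 2 ^ A * x / L ^ A := by
      intro χ hχ
      have hq2 : 2 ≤ q := by
        by_contra hlt
        have : q = 1 := by omega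
        subst this
        exact hχ (Subsingleton.elim _ _)
      have := h1 u ((le_max_left _ _).trans huM) q hq2 hqu χ hχ
      rw [Nat.floor_natCast] at this
      exact this.trans (hconv C₁ hC₁.le)
    have hψ1 : ‖∑ n ∈ Ioc 0 u, (vonMangoldt n : ℂ) * (1 : DirichletCharacter ℂ q) n - u‖ ≤
        C₂ * 2 ^ A * x / L ^ A + 9 * x / L ^ A := by
      have h3 := h2 u ((le_max_right _ _).trans huM)
      rw [Nat.floor_natCast] at h3
      have e1 : ∑ n ∈ Ioc 0 u, (vonMangoldt n : ℂ) * (1 : DirichletCharacter ℂ q) n =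
          ((∑ n ∈ Ioc 0 u, vonMangoldt n - ∑ n ∈ Ioc 0 u with ¬ Nat.Coprime n q,
            vonMangoldt n : ℝ) : ℂ) := by
        rw [sum_filter, ← sum_sub_distrib]
        push_cast
        apply sum_congr rfl
        intro n _
        by_cases hn : Nat.Coprime n q
        · rw [MulChar.one_apply ((ZMod.isUnit_iff_coprime n q).2 hn), if_neg (by simpa using hn)]
          simp
        · rw [MulChar.map_nonunit _ (fun h => hn ((ZMod.isUnit_iff_coprime n q).1 h)), if_pos hn]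
          simp
      have h4 := noncoprime_sum q u hq hupos
      have h5 : 0 ≤ ∑ n ∈ Ioc 0 u with ¬ Nat.Coprime n q, vonMangoldt n :=
        sum_nonneg fun n _ => vonMangoldt_nonneg
      have h6 : (q : ℝ) * (2 * Real.log u + 1) * Real.log u ≤ 9 * x / L ^ A := by
        rw [le_div_iff₀ (by positivity)]
        calc (q : ℝ) * (2 * Real.log u + 1) * Real.log u * L ^ A
            ≤ L ^ B * (2 * L + 1) * L * L ^ A := by gcongr
          _ ≤ L ^ B * (9 * L) * L * L ^ A := by gcongr; linarith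
          _ = 9 * L ^ (A + B + 2) := by ring
          _ ≤ 9 * (1 * x) := by
            have := hx₃ x hX3
            linarith
          _ = 9 * x := by ring
      rw [e1, ← Complex.ofReal_natCast, ← Complex.ofReal_sub, Complex.norm_real, Real.norm_eq_abs]
      calc |∑ n ∈ Ioc 0 u, vonMangoldt n - ∑ n ∈ Ioc 0 u with ¬ Nat.Coprime n q,
            vonMangoldt n - u| = |(∑ n ∈ Ioc 0 u, vonMangoldt n - u) -
              ∑ n ∈ Ioc 0 u with ¬ Nat.Coprime n q, vonMangoldt n| := by congr 1; ring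
        _ ≤ |∑ n ∈ Ioc 0 u, vonMangoldt n - u| +
              |∑ n ∈ Ioc 0 u with ¬ Nat.Coprime n q, vonMangoldt n| := abs_sub _ _
        _ ≤ _ := by
          rw [abs_of_nonneg h5]
          exact add_le_add (h3.trans (hconv C₂ hC₂.le)) (h4.trans h6)
    -- orthogonality
    have : NeZero q := ⟨hq.ne'⟩
    have hunit : IsUnit (b : ZMod q) := (ZMod.isUnit_iff_coprime b q).2 hb
    have horth : ((∑ n ∈ Ioc 0 u with n ≡ b [MOD q], vonMangoldt n : ℝ) : ℂ) * Nat.totient q =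
        ∑ χ : DirichletCharacter ℂ q, χ (b : ZMod q)⁻¹ *
          ∑ n ∈ Ioc 0 u, (vonMangoldt n : ℂ) * χ n := by
      simp_rw [mul_sum]
      rw [sum_comm]
      rw [sum_filter]
      push_cast
      rw [sum_mul]
      apply sum_congr rfl
      intro n _
      have h7 := DirichletCharacter.sum_char_inv_mul_char_eq ℂ hunit (n : ZMod q)
      have h8 : ∑ χ : DirichletCharacter ℂ q, χ (b : ZMod q)⁻¹ * ((vonMangoldt n : ℂ) * χ n) =
          (vonMangoldt n : ℂ) * ∑ χ : DirichletCharacter ℂ q, χ (b : ZMod q)⁻¹ * χ n := by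
        rw [mul_sum]
        apply sum_congr rfl
        intro χ _
        ring
      rw [h8, h7]
      by_cases hn : n ≡ b [MOD q]
      · rw [if_pos hn, if_pos ((ZMod.natCast_eq_natCast_iff _ _ _).2 hn.symm)]
      · rw [if_neg hn, if_neg (fun h => hn ((ZMod.natCast_eq_natCast_iff _ _ _).1 h).symm)]
        simp
    have hsplit : ((∑ n ∈ Ioc 0 u with n ≡ b [MOD q], vonMangoldt n - u / (Nat.totient q : ℝ) : ℝ) : ℂ) *
        Nat.totient q = ∑ χ : DirichletCharacter ℂ q, χ (b : ZMod q)⁻¹ *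
          (∑ n ∈ Ioc 0 u, (vonMangoldt n : ℂ) * χ n - if χ = 1 then (u : ℂ) else 0) := by
      simp_rw [mul_sub]
      rw [sum_sub_distrib, ← horth]
      have h9 : ∑ χ : DirichletCharacter ℂ q, χ (b : ZMod q)⁻¹ * (if χ = 1 then (u : ℂ) else 0) = u := by
        rw [sum_eq_single 1]
        · rw [if_pos rfl, MulChar.one_apply (IsUnit.of_mul_eq_one (b : ZMod q) (by
            rw [mul_comm]; exact ZMod.coe_mul_inv_eq_one b hb)), one_mul]
        · intro χ _ hχ
          rw [if_neg hχ, mul_zero]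
        · intro h; exact absurd (mem_univ _) h
      rw [h9]
      push_cast
      rw [sub_mul, div_mul_cancel₀]
      exact_mod_cast hφ.ne'
    have hnorm : ∀ χ : DirichletCharacter ℂ q, ‖χ (b : ZMod q)⁻¹ *
          (∑ n ∈ Ioc 0 u, (vonMangoldt n : ℂ) * χ n - if χ = 1 then (u : ℂ) else 0)‖ ≤
          (C₁ * 2 ^ A + C₂ * 2 ^ A + 9) * x / L ^ A := by
      intro χ
      rw [norm_mul]
      refine (mul_le_of_le_one_left (norm_nonneg _) (χ.norm_le_one _)).trans ?_
      have p1 : 0 ≤ C₁ * 2 ^ A * x / L ^ A := by positivity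
      have p2 : 0 ≤ C₂ * 2 ^ A * x / L ^ A := by positivity
      have p3 : 0 ≤ 9 * x / L ^ A := by positivity
      have e : (C₁ * 2 ^ A + C₂ * 2 ^ A + 9) * x / L ^ A =
          C₁ * 2 ^ A * x / L ^ A + C₂ * 2 ^ A * x / L ^ A + 9 * x / L ^ A := by ring
      rw [e]
      by_cases hχ : χ = 1
      · rw [if_pos hχ, hχ]
        linarith
      · rw [if_neg hχ, sub_zero]
        linarith [hψ χ hχ]
    have hcard : (Fintype.card (DirichletCharacter ℂ q) : ℝ) = Nat.totient q := by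
      rw [← Nat.card_eq_fintype_card]
      exact_mod_cast DirichletCharacter.card_eq_totient_of_hasEnoughRootsOfUnity ℂ q
    have hfin : |∑ n ∈ Ioc 0 u with n ≡ b [MOD q], vonMangoldt n - u / (Nat.totient q : ℝ)| *
        Nat.totient q ≤ ((C₁ * 2 ^ A + C₂ * 2 ^ A + 9) * x / L ^ A) * Nat.totient q := by
      calc |∑ n ∈ Ioc 0 u with n ≡ b [MOD q], vonMangoldt n - u / (Nat.totient q : ℝ)| *
            Nat.totient q = ‖((∑ n ∈ Ioc 0 u with n ≡ b [MOD q], vonMangoldt n -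
              u / (Nat.totient q : ℝ) : ℝ) : ℂ) * Nat.totient q‖ := by
            rw [norm_mul, Complex.norm_real, Real.norm_eq_abs, Complex.norm_natCast]
        _ ≤ ∑ χ : DirichletCharacter ℂ q, (C₁ * 2 ^ A + C₂ * 2 ^ A + 9) * x / L ^ A := by
            rw [hsplit]
            exact (norm_sum_le _ _).trans (sum_le_sum fun χ _ => hnorm χ)
        _ = _ := by
            rw [sum_const, card_univ, nsmul_eq_mul, hcard]
            ring
    refine (le_of_mul_le_mul_right hfin hφ0).trans ?_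
    gcongr
    linarith

end Pool.Agent.helper74.TG
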