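import Pool.Agent.helper74.TG.Defs
import Pool.Agent.helper35.MT.AN3
import Pool.Agent.helper17.TG.SW1

/-!
# GNU project (MP_d11331_al), module sw:6: the derivatives of `L'/L` (after helper35's AN3)
-/

namespace Pool.Agent.helper74.TG

open Finset Real ArithmeticFunction Pool.Agent.helper39.MT

lemma one_le_ll (q : ℕ) (s : ℂ) : 1 ≤ ll q s := by
  unfold ll
  have h1 := Real.log_natCast_nonneg q
  have h2 : 0 ≤ Real.log (2 + |s.im|) := Real.log_nonneg (by linarith [abs_nonneg s.im])
  linarith

/-- sw:6: bound for the derivatives of `-L'/L`, from the statement of `DD_bound`. -/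
theorem GG_bound_t_of
    (DD_bound : ∀ j : ℕ, ∃ C : ℝ, 0 < C ∧ ∀ q : ℕ, 2 ≤ q → ∀ χ : DirichletCharacter ℂ q, χ ≠ 1 →
      ∀ s : ℂ, 1 < s.re → s.re ≤ 2 → ‖DD χ j s‖ ≤ C * (ll q s) ^ (j + 1))
    (K : ℕ) : ∃ C : ℝ, ∃ E : ℕ, 0 < C ∧ ∀ q : ℕ, 2 ≤ q →
    ∀ χ : DirichletCharacter ℂ q, χ ≠ 1 → ∀ s : ℂ, 1 < s.re → s.re ≤ 2 →
    ∀ b : ℝ, 0 < b → b ≤ 1 → b ≤ ‖DD χ 0 s‖ → ∀ j ≤ K,
      ‖GG χ j s‖ ≤ C * ((ll q s) / b) ^ E := by
  choose C' hC' hD using DD_bound
  have key : ∀ j : ℕ, ∃ C : ℝ, 0 < C ∧ ∀ q : ℕ, 2 ≤ q →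
      ∀ χ : DirichletCharacter ℂ q, χ ≠ 1 → ∀ s : ℂ, 1 < s.re → s.re ≤ 2 →
      ∀ b : ℝ, 0 < b → b ≤ 1 → b ≤ ‖DD χ 0 s‖ →
        ‖GG χ j s‖ ≤ C * ((ll q s) / b) ^ (3 * j + 2) := by
    intro j
    induction j using Nat.strong_induction_on with
    | _ j ih =>
      choose! Ci hCi hGi using ih
      refine ⟨C' (j + 1) + ∑ i ∈ range j, (Nat.choose j i : ℝ) * Ci i * C' (j - i), ?_, ?_⟩
      · refine add_pos_of_pos_of_nonneg (hC' _) (Finset.sum_nonneg fun i hi => ?_)
        have := hCi i (Finset.mem_range.1 hi)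
        have := hC' (j - i)
        positivity
      · intro q hq χ hχ s hs hs2 b hb hb1 hbD
        have hD0 : DD χ 0 s ≠ 0 := by
          intro h
          rw [h, norm_zero] at hbD
          linarith
        have hl : 1 ≤ ll q s := one_le_ll q s
        have hlb : ll q s ≤ (ll q s) / b := by
          rw [le_div_iff₀ hb]
          nlinarith
        have hlb1 : 1 ≤ (ll q s) / b := hl.trans hlb
        have hrec := DD_succ (by omega) χ j s hs
        rw [Finset.sum_range_succ, Nat.choose_self, Nat.sub_self, Nat.cast_one, one_mul] at hrec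
        have hG : GG χ j s = (DD χ (j + 1) s - ∑ i ∈ range j,
            (Nat.choose j i : ℂ) * GG χ i s * DD χ (j - i) s) / DD χ 0 s := by
          rw [eq_div_iff hD0, hrec]
          ring
        have hnum : ‖DD χ (j + 1) s - ∑ i ∈ range j,
            (Nat.choose j i : ℂ) * GG χ i s * DD χ (j - i) s‖
            ≤ (C' (j + 1) + ∑ i ∈ range j, (Nat.choose j i : ℝ) * Ci i * C' (j - i))
              * (((ll q s) / b) ^ (3 * j + 1) * (ll q s)) := by
          refine (norm_sub_le _ _).trans ?_
          rw [add_mul]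
          apply add_le_add
          · refine (hD (j + 1) q hq χ hχ s hs hs2).trans ?_
            apply mul_le_mul_of_nonneg_left _ (hC' _).le
            rw [pow_succ]
            apply mul_le_mul_of_nonneg_right _ (by linarith)
            calc (ll q s) ^ (j + 1) ≤ ((ll q s) / b) ^ (j + 1) :=
                  pow_le_pow_left₀ (by linarith) hlb _
              _ ≤ _ := pow_le_pow_right₀ hlb1 (by omega)
          · refine (norm_sum_le _ _).trans ?_
            rw [Finset.sum_mul]
            refine Finset.sum_le_sum fun i hi => ?_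
            rw [Finset.mem_range] at hi
            rw [norm_mul, norm_mul, Complex.norm_natCast]
            have h1 := hGi i hi q hq χ hχ s hs hs2 b hb hb1 hbD
            have h2 := hD (j - i) q hq χ hχ s hs hs2
            have h3 : ((ll q s) / b) ^ (3 * i + 2) * (ll q s) ^ (j - i + 1)
                ≤ ((ll q s) / b) ^ (3 * j + 1) * (ll q s) := by
              rw [pow_succ (ll q s), ← mul_assoc]
              apply mul_le_mul_of_nonneg_right _ (by linarith)
              calc ((ll q s) / b) ^ (3 * i + 2) * (ll q s) ^ (j - i)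
                  ≤ ((ll q s) / b) ^ (3 * i + 2) * ((ll q s) / b) ^ (j - i) := by
                    apply mul_le_mul_of_nonneg_left _ (by positivity)
                    exact pow_le_pow_left₀ (by linarith) hlb _
                _ = ((ll q s) / b) ^ (3 * i + 2 + (j - i)) := by rw [← pow_add]
                _ ≤ _ := pow_le_pow_right₀ hlb1 (by omega)
            have hCi' := hCi i hi
            have hCj' := hC' (j - i)
            calc (Nat.choose j i : ℝ) * ‖GG χ i s‖ * ‖DD χ (j - i) s‖
                ≤ (Nat.choose j i : ℝ) * (Ci i * ((ll q s) / b) ^ (3 * i + 2))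
                    * (C' (j - i) * (ll q s) ^ (j - i + 1)) := by
                  apply mul_le_mul _ h2 (norm_nonneg _) (by positivity)
                  exact mul_le_mul_of_nonneg_left h1 (Nat.cast_nonneg _)
              _ = ((Nat.choose j i : ℝ) * Ci i * C' (j - i))
                    * (((ll q s) / b) ^ (3 * i + 2) * (ll q s) ^ (j - i + 1)) := by
                  ring
              _ ≤ _ := by
                  apply mul_le_mul_of_nonneg_left h3
                  positivity
        rw [hG, norm_div]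
        have hSnn : 0 ≤ C' (j + 1) + ∑ i ∈ range j, (Nat.choose j i : ℝ) * Ci i * C' (j - i) := by
          refine add_nonneg (hC' _).le (Finset.sum_nonneg fun i hi => ?_)
          have := hCi i (Finset.mem_range.1 hi)
          have := hC' (j - i)
          positivity
        calc ‖DD χ (j + 1) s - ∑ i ∈ range j, (Nat.choose j i : ℂ) * GG χ i s * DD χ (j - i) s‖
              / ‖DD χ 0 s‖
            ≤ ((C' (j + 1) + ∑ i ∈ range j, (Nat.choose j i : ℝ) * Ci i * C' (j - i))
              * (((ll q s) / b) ^ (3 * j + 1) * (ll q s))) / b := by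
              apply div_le_div₀ _ hnum hb hbD
              positivity
          _ = _ := by
              rw [pow_succ ((ll q s) / b) (3 * j + 1)]
              ring
  choose C hC hG using key
  refine ⟨∑ j ∈ range (K + 1), C j, 3 * K + 2,
    Finset.sum_pos (fun j _ => hC j) ⟨0, Finset.mem_range.2 (Nat.succ_pos K)⟩, ?_⟩
  intro q hq χ hχ s hs hs2 b hb hb1 hbD j hj
  have hl : 1 ≤ ll q s := one_le_ll q s
  have hlb1 : 1 ≤ (ll q s) / b := by
    rw [le_div_iff₀ hb]
    linarith
  refine (hG j q hq χ hχ s hs hs2 b hb hb1 hbD).trans ?_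
  apply mul_le_mul _ (pow_le_pow_right₀ hlb1 (by omega)) (by positivity)
    (Finset.sum_nonneg fun j _ => (hC j).le)
  exact Finset.single_le_sum (f := C) (fun j _ => (hC j).le) (Finset.mem_range.2 (by omega))

/-- sw:6 -/
theorem GG_bound_t (K : ℕ) : ∃ (C : ℝ) (E : ℕ), 0 < C ∧ ∀ q : ℕ, 2 ≤ q →
    ∀ χ : DirichletCharacter ℂ q, χ ≠ 1 → ∀ s : ℂ, 1 < s.re → s.re ≤ 2 →
    ∀ b : ℝ, 0 < b → b ≤ 1 → b ≤ ‖DD χ 0 s‖ → ∀ j ≤ K, ‖GG χ j s‖ ≤ C * (ll q s / b) ^ E :=
  GG_bound_t_of DD_bound_t K

end Pool.Agent.helper74.TG
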