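import Pool.Agent.helper74.TG.SW6
import Pool.Agent.helper74.TG.SW7

/-!
# GNU project (MP_d11331_al), module sw:8: `∑ Λ(n) χ(n)`
-/

namespace Pool.Agent.helper74.TG

open Finset Real ArithmeticFunction Pool.Agent.helper39.MT

private lemma h74_re (L t : ℝ) : (1 + 1 / (L : ℂ) + (t : ℂ) * Complex.I).re = 1 + 1 / L := by
  have : (1 / (L : ℂ)) = ((1 / L : ℝ) : ℂ) := by push_cast; rfl
  rw [this]
  simp

private lemma h74_im (L t : ℝ) : (1 + 1 / (L : ℂ) + (t : ℂ) * Complex.I).im = t := by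
  have : (1 / (L : ℂ)) = ((1 / L : ℝ) : ℂ) := by push_cast; rfl
  rw [this]
  simp

/-- `ll` is at most a constant times `log log x` when `q` and `t` are at most powers of `log x`. -/
lemma ll_le (B m : ℕ) (L : ℝ) (hL : Real.exp 1 ≤ L) (q : ℕ) (hq : 0 < q) (hqL : (q : ℝ) ≤ L ^ B)
    (s : ℂ) (ht : |s.im| ≤ L ^ m) : ll q s ≤ (B + m + 4 : ℝ) * Real.log L := by
  have hL0 : 0 < L := (Real.exp_pos 1).trans_le hL
  have hlog : 1 ≤ Real.log L := by rw [Real.le_log_iff_exp_le hL0]; exact hL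
  have h1 : Real.log q ≤ B * Real.log L := by
    rw [← Real.log_pow]
    exact Real.log_le_log (by exact_mod_cast hq) hqL
  have hL2 : (2 : ℝ) ≤ L := by linarith [Real.exp_one_gt_d9]
  have hLm : (1 : ℝ) ≤ L ^ m := one_le_pow₀ (by linarith)
  have h2 : Real.log (2 + |s.im|) ≤ Real.log 3 + m * Real.log L := by
    rw [← Real.log_pow, ← Real.log_mul (by norm_num) (by positivity)]
    exact Real.log_le_log (by positivity) (by linarith)
  have h3 : Real.log 3 ≤ 2 := by
    rw [Real.log_le_iff_le_exp (by norm_num)]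
    have := Real.add_one_le_exp (2 : ℝ)
    linarith
  unfold ll
  nlinarith

theorem psi_char_of
    (GG_bound_t : ∀ K : ℕ, ∃ (C : ℝ) (E : ℕ), 0 < C ∧ ∀ q : ℕ, 2 ≤ q →
      ∀ χ : DirichletCharacter ℂ q, χ ≠ 1 → ∀ s : ℂ, 1 < s.re → s.re ≤ 2 →
      ∀ b : ℝ, 0 < b → b ≤ 1 → b ≤ ‖DD χ 0 s‖ → ∀ j ≤ K, ‖GG χ j s‖ ≤ C * (ll q s / b) ^ E)
    (lower_all : ∀ k : ℕ, 0 < k → ∃ c : ℝ, 0 < c ∧ ∀ q : ℕ, 2 ≤ q →
      ∀ χ : DirichletCharacter ℂ q, χ ≠ 1 → ∀ s : ℂ, 1 < s.re → s.re ≤ 2 →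
      c / ((q : ℝ) ^ (1 / (k : ℝ)) * ll q s ^ 10) ≤ ‖DD χ 0 s‖)
    (A B : ℕ) : ∃ C x₀ : ℝ, 0 < C ∧ ∀ x : ℝ, x₀ ≤ x → ∀ q : ℕ, 2 ≤ q →
    (q : ℝ) ≤ Real.log x ^ B → ∀ χ : DirichletCharacter ℂ q, χ ≠ 1 →
    ‖∑ n ∈ Ioc 0 ⌊x⌋₊, (vonMangoldt n : ℂ) * χ n‖ ≤ C * x / Real.log x ^ A := by
  obtain ⟨K, C, x₀, hC, hF⟩ := fourier_sum A
  obtain ⟨C₁, E, hC₁, hG⟩ := GG_bound_t K
  set k : ℕ := 2 * B * E + 1 with hk
  obtain ⟨c, hc, hlow⟩ := lower_all k (by omega)
  set D : ℝ := (B + (2 * A + 6 : ℕ) + 4 : ℝ) with hD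
  have hD0 : 0 < D := by positivity
  -- the constant factor
  set C₂ : ℝ := C₁ * ((1 + 1 / c) * D ^ 11) ^ E with hC₂
  have hC₂0 : 0 < C₂ := by positivity
  have hlim : ∀ᶠ L : ℝ in Filter.atTop, C₂ * Real.log L ^ (11 * E) ≤ L ^ (1 / 2 : ℝ) := by
    have h1 := (isLittleO_log_rpow_rpow_atTop ((11 * E : ℕ) : ℝ) (show (0 : ℝ) < 1 / 2 by norm_num)).bound
      (show (0 : ℝ) < 1 / C₂ by positivity)
    filter_upwards [h1, Filter.eventually_ge_atTop (Real.exp 1)] with L hL hL1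
    have hL0 : 0 < L := (Real.exp_pos 1).trans_le hL1
    have hlog : 0 ≤ Real.log L := by
      have : 1 ≤ Real.log L := by rw [Real.le_log_iff_exp_le hL0]; exact hL1
      linarith
    rw [Real.norm_of_nonneg (Real.rpow_nonneg hlog _), Real.norm_of_nonneg (Real.rpow_nonneg hL0.le _),
      Real.rpow_natCast] at hL
    calc C₂ * Real.log L ^ (11 * E) ≤ C₂ * (1 / C₂ * L ^ (1 / 2 : ℝ)) := by gcongr
      _ = L ^ (1 / 2 : ℝ) := by field_simp
  obtain ⟨L₀, hL₀⟩ := Filter.eventually_atTop.1 hlim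
  refine ⟨C, max x₀ (Real.exp (max L₀ (Real.exp 1))), hC, ?_⟩
  intro x hx q hq hqL χ hχ
  have hx1 : Real.exp (max L₀ (Real.exp 1)) ≤ x := (le_max_right _ _).trans hx
  have hx0 : 0 < x := (Real.exp_pos _).trans_le hx1
  have hLm : max L₀ (Real.exp 1) ≤ Real.log x := by rw [Real.le_log_iff_exp_le hx0]; exact hx1
  have hLe : Real.exp 1 ≤ Real.log x := (le_max_right _ _).trans hLm
  have hLL := hL₀ _ ((le_max_left _ _).trans hLm)
  have hL0 : 0 < Real.log x := (Real.exp_pos 1).trans_le hLe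
  have hL1 : 1 ≤ Real.log x := by linarith [Real.exp_one_gt_d9]
  have hloglog : 1 ≤ Real.log (Real.log x) := by rw [Real.le_log_iff_exp_le hL0]; exact hLe
  refine hF x ((le_max_left _ _).trans hx) (fun n => (vonMangoldt n : ℂ) * χ n) ?_ ?_
  · intro n
    rw [norm_mul, Complex.norm_real, Real.norm_of_nonneg vonMangoldt_nonneg]
    calc vonMangoldt n * ‖χ n‖ ≤ vonMangoldt n * 1 :=
          mul_le_mul_of_nonneg_left (χ.norm_le_one _) vonMangoldt_nonneg
      _ ≤ 1 + Real.log n := by rw [mul_one]; linarith [vonMangoldt_le_log (n := n)]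
  · intro t ht
    set s : ℂ := 1 + 1 / (Real.log x : ℂ) + t * Complex.I with hs
    have hre : s.re = 1 + 1 / Real.log x := h74_re _ _
    have him : s.im = t := h74_im _ _
    have hs1 : 1 < s.re := by rw [hre]; have : 0 < 1 / Real.log x := by positivity
                              linarith
    have hs2 : s.re ≤ 2 := by
      rw [hre]
      have : 1 / Real.log x ≤ 1 := by rw [div_le_one hL0]; exact hL1
      linarith
    have hll : ll q s ≤ D * Real.log (Real.log x) := by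
      have := ll_le B (2 * A + 6) (Real.log x) hLe q (by omega) hqL s (by rw [him]; exact ht)
      rw [hD]
      exact_mod_cast this
    have hll1 := one_le_ll q s
    have hq1 : (1 : ℝ) ≤ (q : ℝ) ^ (1 / (k : ℝ)) :=
      Real.one_le_rpow (by exact_mod_cast (by omega : 1 ≤ q)) (by positivity)
    set b : ℝ := min 1 (c / ((q : ℝ) ^ (1 / (k : ℝ)) * ll q s ^ 10)) with hb
    have hb0 : 0 < b := lt_min one_pos (by positivity)
    have hGb := hG q hq χ hχ s hs1 hs2 b hb0 (min_le_left _ _)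
      ((min_le_right _ _).trans (hlow q hq χ hχ s hs1 hs2)) K le_rfl
    have h1b : ll q s / b ≤ (1 + 1 / c) * ((q : ℝ) ^ (1 / (k : ℝ)) * ll q s ^ 11) := by
      rw [div_le_iff₀ hb0, hb]
      rcases le_total 1 (c / ((q : ℝ) ^ (1 / (k : ℝ)) * ll q s ^ 10)) with h | h
      · rw [min_eq_left h, mul_one]
        calc ll q s = 1 * (1 * (ll q s ^ 1)) := by ring
          _ ≤ (1 + 1 / c) * ((q : ℝ) ^ (1 / (k : ℝ)) * ll q s ^ 11) := by
            gcongr
            · have : 0 < 1 / c := by positivity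
              linarith
            · norm_num
      · rw [min_eq_right h]
        have : (1 + 1 / c) * ((q : ℝ) ^ (1 / (k : ℝ)) * ll q s ^ 11) *
            (c / ((q : ℝ) ^ (1 / (k : ℝ)) * ll q s ^ 10)) = (c + 1) * ll q s := by
          field_simp
        rw [this]
        nlinarith
    have h2b : (ll q s / b) ^ E ≤ ((1 + 1 / c) * D ^ 11) ^ E * Real.log (Real.log x) ^ (11 * E) *
        ((q : ℝ) ^ (1 / (k : ℝ))) ^ E := by
      calc (ll q s / b) ^ E ≤ ((1 + 1 / c) * ((q : ℝ) ^ (1 / (k : ℝ)) *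
              (D * Real.log (Real.log x)) ^ 11)) ^ E := by
            apply pow_le_pow_left₀ (by positivity)
            refine h1b.trans ?_
            gcongr
        _ = _ := by rw [mul_pow, mul_pow, mul_pow, mul_pow, mul_pow, pow_mul]; ring
    have h3b : ((q : ℝ) ^ (1 / (k : ℝ))) ^ E ≤ Real.log x ^ (1 / 2 : ℝ) := by
      rw [← Real.rpow_natCast, ← Real.rpow_mul (by positivity)]
      calc (q : ℝ) ^ (1 / (k : ℝ) * E) ≤ (Real.log x ^ B) ^ (1 / (k : ℝ) * E) :=
            Real.rpow_le_rpow (by positivity) hqL (by positivity)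
        _ = Real.log x ^ (B * (1 / (k : ℝ) * E)) := by
            rw [← Real.rpow_natCast, ← Real.rpow_mul hL0.le]
        _ ≤ Real.log x ^ (1 / 2 : ℝ) := by
            apply Real.rpow_le_rpow_of_exponent_le hL1
            rw [hk]
            push_cast
            have : (B : ℝ) * (1 / (2 * B * E + 1) * E) = (B * E) / (2 * B * E + 1) := by
              field_simp
            rw [this, div_le_div_iff₀ (by positivity) (by norm_num)]
            have : (0 : ℝ) ≤ B * E := by positivity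
            nlinarith
    have hgoal : ‖GG χ K s‖ ≤ Real.log x := by
      calc ‖GG χ K s‖ ≤ C₁ * (ll q s / b) ^ E := hGb
        _ ≤ C₁ * (((1 + 1 / c) * D ^ 11) ^ E * Real.log (Real.log x) ^ (11 * E) *
              Real.log x ^ (1 / 2 : ℝ)) := by
            apply mul_le_mul_of_nonneg_left _ hC₁.le
            refine h2b.trans ?_
            gcongr
        _ = (C₂ * Real.log (Real.log x) ^ (11 * E)) * Real.log x ^ (1 / 2 : ℝ) := by
            rw [hC₂]; ring
        _ ≤ Real.log x ^ (1 / 2 : ℝ) * Real.log x ^ (1 / 2 : ℝ) := by gcongr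
        _ = Real.log x := by
            rw [← Real.rpow_add hL0]; norm_num
    exact hgoal

end Pool.Agent.helper74.TG
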